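import Pool.Agent.Helper55.RG.Spec2

/-!
# IRR: a monic irreducible polynomial over `k(t)` remains irreducible modulo almost all polynomials
-/

set_option autoImplicit false
set_option linter.all false
set_option maxHeartbeats 4000000
set_option synthInstance.maxHeartbeats 400000

namespace Pool.Agent.Helper86.RG.IRR

open MvPolynomial Pool.Agent.W275.UB Pool.Agent.W275.ND Pool.Agent Pool.Agent.H927R2.RD
open Pool.Agent.R939.HI Pool.Agent.H936R2 H294UB Pool.Agent.W131.ND.Lmk
open Pool.Agent.Helper55.TT Pool.Agent.R939.EI Pool.Agent.Helper55.PR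
open Pool.Agent.Helper55.RG (S_IRR S_IAL S_THE S_GIR)

open scoped Polynomial

section two

/-- a polynomial in two variables with given coefficients -/
noncomputable def pl2 {R : Type} [CommRing R] {r n : ℕ} (x : Fin r × Fin n → R) : R[X][X] :=
  pl fun i => pl fun j => x (i, j)

/-- a monic polynomial in two variables with given coefficients -/
noncomputable def pm2 {R : Type} [CommRing R] {r n : ℕ} (x : Fin r × Fin n → R) : R[X][X] :=
  pm fun i => pl fun j => x (i, j)

theorem pl2_map {R R' : Type} [CommRing R] [CommRing R'] (f : R →+* R') {r n : ℕ}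
    (x : Fin r × Fin n → R) :
    (pl2 x).map (Polynomial.mapRingHom f) = pl2 fun q => f (x q) := by
  rw [pl2, pl_map, pl2]
  congr 1
  funext i
  rw [Polynomial.coe_mapRingHom, pl_map]

theorem pm2_map {R R' : Type} [CommRing R] [CommRing R'] (f : R →+* R') {r n : ℕ}
    (x : Fin r × Fin n → R) :
    (pm2 x).map (Polynomial.mapRingHom f) = pm2 fun q => f (x q) := by
  rw [pm2, pm_map, pm2]
  congr 1
  funext i
  rw [Polynomial.coe_mapRingHom, pl_map]

theorem pm2_coeff {R : Type} [CommRing R] {r n : ℕ} (x : Fin r × Fin n → R) (i : Fin r)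
    (j : Fin n) : ((pm2 x).coeff i).coeff j = x (i, j) := by
  rw [pm2, pm_eq, Polynomial.coeff_add, Polynomial.coeff_X_pow,
    if_neg (by have := i.2; omega), zero_add, pl_coeff, dif_pos i.2, pl_coeff, dif_pos j.2]

theorem pl2_coeff {R : Type} [CommRing R] {r n : ℕ} (x : Fin r × Fin n → R) (i : Fin r)
    (j : Fin n) : ((pl2 x).coeff i).coeff j = x (i, j) := by
  rw [pl2, pl_coeff, dif_pos i.2, pl_coeff, dif_pos j.2]

theorem pm2_deg {R : Type} [CommRing R] [Nontrivial R] {r n : ℕ} (hn : 0 < n)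
    (x : Fin r × Fin n → R) (m : ℕ) : ((pm2 x).coeff m).degree < n := by
  rw [pm2, pm_eq, Polynomial.coeff_add, Polynomial.coeff_X_pow, pl_coeff]
  rcases lt_trichotomy m r with h | h | h
  · rw [if_neg (by omega), dif_pos h, zero_add]
    exact pl_deg _
  · rw [if_pos h, dif_neg (by omega), add_zero, Polynomial.degree_one]
    exact_mod_cast hn
  · rw [if_neg (by omega), dif_neg (by omega), add_zero, Polynomial.degree_zero]
    exact WithBot.bot_lt_coe _

/-- `g - (e u v + P h)` -/
noncomputable def eqn {R : Type} [CommRing R] (g : R[X][X]) (e : R[X]) (u v : R[X][X]) (P : R[X])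
    (h : R[X][X]) : R[X][X] :=
  g - (Polynomial.C e * (u * v) + Polynomial.C P * h)

theorem eqn_map {R R' : Type} [CommRing R] [CommRing R'] (f : R →+* R') (g : R[X][X]) (e : R[X])
    (u v : R[X][X]) (P : R[X]) (h : R[X][X]) :
    (eqn g e u v P h).map (Polynomial.mapRingHom f) =
      eqn (g.map (Polynomial.mapRingHom f)) (e.map f) (u.map (Polynomial.mapRingHom f))
        (v.map (Polynomial.mapRingHom f)) (P.map f) (h.map (Polynomial.mapRingHom f)) := by
  simp only [eqn, Polynomial.map_sub, Polynomial.map_add, Polynomial.map_mul, Polynomial.map_C,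
    Polynomial.coe_mapRingHom]

end two

section sys

variable {ι J : Type} [Fintype J] {O : Type} [CommRing O] (ω : Module.Basis J ℤ O)

/-- a polynomial in two variables over `O` in terms of the unknown images of the basis -/
noncomputable def gG (τ ι : Type) (G : O[X][X]) :
    Polynomial (Polynomial (MvPolynomial (J ⊕ τ) (MvPolynomial (ι × J) ℤ))) :=
  ∑ m ∈ Finset.range (G.natDegree + 1),
    Polynomial.C (gQX ω τ ι (G.coeff m)) * Polynomial.X ^ m

theorem map_gG {τ R : Type} [CommRing R] (φ : MvPolynomial (ι × J) ℤ →+* R) (y : J ⊕ τ → R)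
    (σ : O →+* R) (hσ : ∀ j, y (Sum.inl j) = σ (ω j)) (G : O[X][X]) :
    (gG ω τ ι G).map (Polynomial.mapRingHom (eval₂Hom φ y)) =
      G.map (Polynomial.mapRingHom σ) := by
  conv_rhs => rw [G.as_sum_range_C_mul_X_pow, Polynomial.map_sum]
  rw [gG, Polynomial.map_sum]
  refine Finset.sum_congr rfl fun m _ => ?_
  rw [Polynomial.map_mul, Polynomial.map_mul, Polynomial.map_pow, Polynomial.map_pow,
    Polynomial.map_X, Polynomial.map_X, Polynomial.map_C, Polynomial.map_C,
    Polynomial.coe_mapRingHom, Polynomial.coe_mapRingHom, map_gQX ω φ y σ hσ]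

/-- the unknowns -/
abbrev Ut (r s n q N : ℕ) : Type := (Fin r × Fin n) ⊕ ((Fin s × Fin n) ⊕ (Fin q × Fin N))

/-- the equation -/
noncomputable def Eq0 (r s n q N : ℕ) (G : O[X][X]) (d : O) (P : Polynomial (MvPolynomial ι ℤ)) :
    Polynomial (Polynomial (MvPolynomial (J ⊕ Ut r s n q N) (MvPolynomial (ι × J) ℤ))) :=
  eqn (gG ω (Ut r s n q N) ι G) (gQX ω (Ut r s n q N) ι (Polynomial.C d))
      (pm2 (fun z : Fin r × Fin n => X (Sum.inr (Sum.inl z))))
      (pm2 (fun z : Fin s × Fin n => X (Sum.inr (Sum.inr (Sum.inl z)))))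
      (P.map (sbT (Ut r s n q N) ι J))
      (pl2 (fun z : Fin q × Fin N => X (Sum.inr (Sum.inr (Sum.inr z)))))

/-- the equations -/
noncomputable def SS (r s n q N : ℕ) (G : O[X][X]) (d : O) (P : Polynomial (MvPolynomial ι ℤ)) :
    Set (MvPolynomial (J ⊕ Ut r s n q N) (MvPolynomial (ι × J) ℤ)) :=
  Set.range fun ml : ℕ × ℕ => ((Eq0 ω r s n q N G d P).coeff ml.1).coeff ml.2

theorem eval_SS {R : Type} [CommRing R] {r s n q N : ℕ} (G : O[X][X]) (d : O)
    (P : Polynomial (MvPolynomial ι ℤ)) (φ : MvPolynomial (ι × J) ℤ →+* R)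
    (y : J ⊕ Ut r s n q N → R) (σ : O →+* R) (hσ : ∀ j, y (Sum.inl j) = σ (ω j)) :
    (∀ g ∈ SS ω r s n q N G d P, eval₂ φ y g = 0) ↔
      G.map (Polynomial.mapRingHom σ) =
        Polynomial.C (Polynomial.C (σ d)) *
          (pm2 (fun z : Fin r × Fin n => y (Sum.inr (Sum.inl z))) *
            pm2 (fun z : Fin s × Fin n => y (Sum.inr (Sum.inr (Sum.inl z))))) +
        Polynomial.C (P.map (av (cv (fun j => σ (ω j)) fun q => φ (X q)))) *
          pl2 (fun z : Fin q × Fin N => y (Sum.inr (Sum.inr (Sum.inr z)))) := by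
  have hv : (fun j => y (Sum.inl j)) = fun j => σ (ω j) := funext hσ
  have key0 : (Eq0 ω r s n q N G d P).map (Polynomial.mapRingHom (eval₂Hom φ y)) =
      G.map (Polynomial.mapRingHom σ) - (Polynomial.C (Polynomial.C (σ d)) *
          (pm2 (fun z : Fin r × Fin n => y (Sum.inr (Sum.inl z))) *
            pm2 (fun z : Fin s × Fin n => y (Sum.inr (Sum.inr (Sum.inl z))))) +
        Polynomial.C (P.map (av (cv (fun j => σ (ω j)) fun q => φ (X q)))) *
          pl2 (fun z : Fin q × Fin N => y (Sum.inr (Sum.inr (Sum.inr z))))) := by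
    rw [Eq0, eqn_map, map_gG ω φ y σ hσ, map_gQX ω φ y σ hσ, pm2_map, pm2_map, pl2_map,
      Polynomial.map_map, eval_sbT, hv, Polynomial.map_C]
    simp only [coe_eval₂Hom, eval₂_X]
    rfl
  have key : ∀ ml : ℕ × ℕ, eval₂ φ y (((Eq0 ω r s n q N G d P).coeff ml.1).coeff ml.2) =
      ((G.map (Polynomial.mapRingHom σ) - (Polynomial.C (Polynomial.C (σ d)) *
          (pm2 (fun z : Fin r × Fin n => y (Sum.inr (Sum.inl z))) *
            pm2 (fun z : Fin s × Fin n => y (Sum.inr (Sum.inr (Sum.inl z))))) +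
        Polynomial.C (P.map (av (cv (fun j => σ (ω j)) fun q => φ (X q)))) *
          pl2 (fun z : Fin q × Fin N => y (Sum.inr (Sum.inr (Sum.inr z)))))).coeff ml.1).coeff
            ml.2 := by
    intro ml
    rw [← key0, Polynomial.coeff_map, Polynomial.coe_mapRingHom, Polynomial.coeff_map]
    rfl
  constructor
  · intro h
    rw [← sub_eq_zero]
    ext m l
    have h1 := key (m, l)
    rw [h _ ⟨(m, l), rfl⟩] at h1
    rw [Polynomial.coeff_zero, Polynomial.coeff_zero]
    exact h1.symm
  · rintro h _ ⟨ml, rfl⟩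
    have h1 := key ml
    rw [h, sub_self, Polynomial.coeff_zero, Polynomial.coeff_zero] at h1
    exact h1

end sys

section dens

variable {ι J O : Type} [Fintype ι] [Fintype J] [CommRing O] [IsDomain O]
  (ω : Module.Basis J ℤ O)

/-- density zero -/
theorem densU (hI : S_IAL) (P A B : Polynomial (MvPolynomial ι ℤ)) (Δ : MvPolynomial ι ℤ)
    (hΔ : Δ ≠ 0) (hPs : A * P + B * Polynomial.derivative P = Polynomial.C Δ)
    (G : O[X][X]) (d : O) (hd : d ≠ 0) {n : ℕ} (hn : 0 < n) (hPd : P.natDegree = n)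
    (r s q N : ℕ) {F : Type} [Field F] (Θ : MvPolynomial (ι × J) O →+* F)
    (hΘ : Function.Injective Θ)
    (hno : ∀ (u : Fin r × Fin n → F) (v : Fin s × Fin n → F) (h : Fin q × Fin N → F),
      G.map (Polynomial.mapRingHom (Θ.comp C)) ≠
        Polynomial.C (Polynomial.C (Θ (C d))) * (pm2 u * pm2 v) +
        Polynomial.C (P.map (av (cv (fun j => Θ (C (ω j))) fun q => Θ (X q)))) * pl2 h) :
    D0 {x : ι × J → ℤ | ∃ (K : Type) (_ : Field K) (_ : NumberField K)
      (σ : O →+* K) (u : Fin r × Fin n → K) (v : Fin s × Fin n → K) (h : Fin q × Fin N → K),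
      Module.finrank ℚ K ≤ Fintype.card J ∧
      G.map (Polynomial.mapRingHom σ) =
        Polynomial.C (Polynomial.C (σ d)) * (pm2 u * pm2 v) +
        Polynomial.C (P.map (av (cv (fun j => σ (ω j)) fun q => (x q : K)))) * pl2 h} := by
  classical
  have key := sysE (τ := Ut r s n q N) ω (SS ω r s n q N G d P) (by
    intro Ω _ _ _ σ y hσ hy
    have h1 := (eval_SS ω G d P _ y σ hσ).1 hy
    set v : ι → Ω := cv (fun j => σ (ω j)) fun q => gn (ι × J) Ω (X q) with hv
    have hσa : ∀ x : O, IsAlgebraic (EE (ι × J)) (σ x) := fun x => ord_alg ω σ x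
    have hvalg : ∀ i, IsAlgebraic (EE (ι × J)) (v i) := fun i => par_alg ω σ i
    have hne : ∀ c : MvPolynomial ι ℤ, c ≠ 0 → av v c ≠ 0 := by
      intro c hc
      obtain ⟨cn, hcn, hdiv⟩ := norm O J ι ω c hc
      have h3 := hdiv Ω σ fun q => gn (ι × J) Ω (X q)
      rw [gn_aeval] at h3
      have h4 := ne_zero_of_dvd_ne_zero (gn_ne_zero cn hcn) h3
      rw [av_aeval]
      exact h4
    have hPa : ∀ n, IsAlgebraic (EE (ι × J)) ((P.map (av v)).coeff n) := by
      intro n
      rw [Polynomial.coeff_map]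
      exact isAlg_av hvalg _
    have hsep : (P.map (av v)).Separable := by
      have h2 := congrArg (fun f => Polynomial.C ((av v Δ)⁻¹) * Polynomial.map (av v) f) hPs
      simp only [Polynomial.map_add, Polynomial.map_mul, Polynomial.map_C] at h2
      rw [← Polynomial.C_mul, inv_mul_cancel₀ (hne Δ hΔ), Polynomial.C_1,
        ← Polynomial.derivative_map] at h2
      refine ⟨Polynomial.C ((av v Δ)⁻¹) * A.map (av v), Polynomial.C ((av v Δ)⁻¹) * B.map (av v), ?_⟩
      rw [← h2]
      ring
    have hPv : (P.map (av v)).natDegree = n := by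
      have hP0 : P ≠ 0 := by
        rintro rfl
        rw [Polynomial.natDegree_zero] at hPd
        omega
      refine le_antisymm (Polynomial.natDegree_map_le.trans hPd.le)
        (Polynomial.le_natDegree_of_ne_zero ?_)
      rw [Polynomial.coeff_map, ← hPd]
      exact hne _ (Polynomial.leadingCoeff_ne_zero.2 hP0)
    have hPdeg : (P.map (av v)).degree = n := by
      rw [Polynomial.degree_eq_natDegree hsep.ne_zero, hPv]
    have hσd : σ d ≠ 0 := by
      intro h0
      have h2 := phi_inj (ι := ι) ω σ (a₁ := C d) (a₂ := 0) (by simp [h0])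
      rw [← C_0] at h2
      exact hd (C_injective _ _ h2)
    have hGa : ∀ m l, IsAlgebraic (EE (ι × J)) (((Polynomial.C (Polynomial.C (σ d)⁻¹) *
        G.map (Polynomial.mapRingHom σ)).coeff m).coeff l) := by
      intro m l
      rw [Polynomial.coeff_C_mul, Polynomial.coeff_C_mul, Polynomial.coeff_map,
        Polynomial.coe_mapRingHom, Polynomial.coeff_map]
      exact (hσa _).inv.mul (hσa _)
    have hcc : (Polynomial.C (Polynomial.C (σ d)⁻¹) : Polynomial (Polynomial Ω)) *
        Polynomial.C (Polynomial.C (σ d)) = 1 := by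
      rw [← Polynomial.C_mul, ← Polynomial.C_mul, inv_mul_cancel₀ hσd, Polynomial.C_1,
        Polynomial.C_1]
    have h2 := hI (EE (ι × J)) Ω (P.map (av v))
      (Polynomial.C (Polynomial.C (σ d)⁻¹) * G.map (Polynomial.mapRingHom σ))
      (pm2 (fun z : Fin r × Fin n => y (Sum.inr (Sum.inl z))))
      (pm2 (fun z : Fin s × Fin n => y (Sum.inr (Sum.inr (Sum.inl z)))))
      (Polynomial.C (Polynomial.C (σ d)⁻¹) *
        pl2 (fun z : Fin q × Fin N => y (Sum.inr (Sum.inr (Sum.inr z))))) hsep hPa hGa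
      (pm_monic _) (pm_monic _) (fun m => by rw [hPdeg]; exact pm2_deg hn _ m)
      (fun m => by rw [hPdeg]; exact pm2_deg hn _ m) (by
        rw [h1]
        linear_combination (pm2 (fun z : Fin r × Fin n => y (Sum.inr (Sum.inl z))) *
          pm2 (fun z : Fin s × Fin n => y (Sum.inr (Sum.inr (Sum.inl z))))) * hcc)
    intro t
    rcases t with ⟨i, j⟩ | ⟨i, j⟩ | ⟨i, j⟩
    · have h5 := (h2 i j).1
      rw [pm2_coeff] at h5
      exact h5
    · have h5 := (h2 i j).2.1
      rw [pm2_coeff] at h5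
      exact h5
    · have h5 := (h2 i j).2.2
      rw [Polynomial.coeff_C_mul, Polynomial.coeff_C_mul, pl2_coeff] at h5
      have h6 := (hσa d).mul h5
      rw [← mul_assoc, mul_inv_cancel₀ hσd, one_mul] at h6
      exact h6) Θ hΘ (by
    intro y hy hS
    have h1 := (eval_SS ω G d P _ y (Θ.comp C) hy).1 hS
    apply hno (fun z => y (Sum.inr (Sum.inl z))) (fun z => y (Sum.inr (Sum.inr (Sum.inl z))))
      (fun z => y (Sum.inr (Sum.inr (Sum.inr z))))
    rw [h1]
    have e1 : (cv (fun j => (Θ.comp C) (ω j)) fun q => (Θ.comp (mo O (ι × J))) (X q)) =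
        (cv (fun j => Θ (C (ω j))) fun q => Θ (X q)) := by
      funext i
      simp [cv, mo]
    rw [e1]
    rfl)
  intro ε hε
  refine (key ε hε).mono ?_
  rintro x ⟨K, _, _, σ, u, v, h, hK, e⟩
  refine ⟨K, inferInstance, inferInstance, σ, Sum.elim (fun j => σ (ω j))
    (Sum.elim u (Sum.elim v h)), hK, fun j => rfl, ?_⟩
  refine (eval_SS ω G d P _ _ σ (fun j => rfl)).2 ?_
  have hx : ∀ q : ι × J, ((Int.castRingHom K).comp (eval x)) (X q) = (x q : K) := by
    intro q
    simp
  simp only [hx, Sum.elim_inl, Sum.elim_inr]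
  exact e

end dens

section nf

open NumberField

/-- integral models in two variables -/
theorem int2 {k : Type} [Field k] [NumberField k] (g : Polynomial (Polynomial k)) :
    ∃ (d : 𝓞 k) (G : Polynomial (Polynomial (𝓞 k))), d ≠ 0 ∧
      G.map (Polynomial.mapRingHom (algebraMap (𝓞 k) k)) =
        Polynomial.C (Polynomial.C (algebraMap (𝓞 k) k d)) * g := by
  have key : ∀ f : Polynomial k, ∃ (d : 𝓞 k) (q : Polynomial (𝓞 k)), d ≠ 0 ∧
      q.map (algebraMap (𝓞 k) k) = Polynomial.C (algebraMap (𝓞 k) k d) * f := by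
    intro f
    obtain ⟨d, hd, hd'⟩ := IsLocalization.integerNormalization_spec (nonZeroDivisors (𝓞 k)) f
    refine ⟨d, IsLocalization.integerNormalization (nonZeroDivisors (𝓞 k)) f,
      nonZeroDivisors.ne_zero hd, ?_⟩
    rw [hd']
    ext i
    rw [Polynomial.coeff_smul, Polynomial.coeff_C_mul, Algebra.smul_def]
  induction g using Polynomial.induction_on' with
  | add p q hp hq =>
    obtain ⟨d1, G1, h1, e1⟩ := hp
    obtain ⟨d2, G2, h2, e2⟩ := hq
    refine ⟨d1 * d2, Polynomial.C (Polynomial.C d2) * G1 + Polynomial.C (Polynomial.C d1) * G2,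
      mul_ne_zero h1 h2, ?_⟩
    rw [Polynomial.map_add, Polynomial.map_mul, Polynomial.map_mul, e1, e2, Polynomial.map_C,
      Polynomial.map_C, Polynomial.coe_mapRingHom, Polynomial.map_C, Polynomial.map_C,
      map_mul, Polynomial.C_mul, Polynomial.C_mul]
    ring
  | monomial m a =>
    obtain ⟨d, q, hd, e⟩ := key a
    refine ⟨d, Polynomial.monomial m q, hd, ?_⟩
    rw [Polynomial.map_monomial, Polynomial.coe_mapRingHom, e, Polynomial.C_mul_monomial]

/-- representatives of small degree -/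
theorem rep {k : Type} [Field k] {D : Polynomial k} (hD : D.natDegree ≠ 0) (z : AdjoinRoot D) :
    ∃ a : Polynomial k, AdjoinRoot.mk D a = z ∧ a.natDegree < D.natDegree := by
  obtain ⟨b, rfl⟩ := AdjoinRoot.mk_surjective z
  refine ⟨b % D, ?_, Polynomial.natDegree_mod_lt b hD⟩
  rw [AdjoinRoot.mk_eq_mk]
  refine ⟨-(b / D), ?_⟩
  have := EuclideanDomain.div_add_mod b D
  linear_combination this

/-- a factorization modulo `D` -/
theorem reduce {k : Type} [Field k] {D : Polynomial k} (hD : Irreducible D) {n : ℕ} (hn : 0 < n)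
    (hDn : D.natDegree = n) {g : Polynomial (Polynomial k)} (hg : g.Monic)
    (hg0 : 0 < g.natDegree) {N : ℕ} (hN : ∀ m, (g.coeff m).natDegree < N) (hN2 : 2 * n < N)
    (hni : ¬ Irreducible (g.map (AdjoinRoot.mk D))) :
    ∃ r ∈ Finset.Ico 1 g.natDegree, ∃ (u : Fin r × Fin n → k)
      (v : Fin (g.natDegree - r) × Fin n → k) (h : Fin g.natDegree × Fin N → k),
      g = pm2 u * pm2 v + Polynomial.C D * pl2 h := by
  classical
  haveI : IsDomain (AdjoinRoot D) := AdjoinRoot.isDomain_of_prime hD.prime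
  have hgm : (g.map (AdjoinRoot.mk D)).Monic := hg.map _
  have hgd : (g.map (AdjoinRoot.mk D)).natDegree = g.natDegree := hg.natDegree_map _
  rw [hgm.irreducible_iff_natDegree] at hni
  have hg1 : g.map (AdjoinRoot.mk D) ≠ 1 := by
    intro h
    rw [h, Polynomial.natDegree_one] at hgd
    omega
  have hni' : ∃ f₁ f₂ : Polynomial (AdjoinRoot D), f₁.Monic ∧ f₂.Monic ∧
      f₁ * f₂ = g.map (AdjoinRoot.mk D) ∧ f₁.natDegree ≠ 0 ∧ f₂.natDegree ≠ 0 := by
    by_contra hcon
    apply hni
    refine ⟨hg1, fun f₁ f₂ h1 h2 h3 => ?_⟩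
    by_contra h4
    rw [not_or] at h4
    exact hcon ⟨f₁, f₂, h1, h2, h3, h4.1, h4.2⟩
  obtain ⟨f₁, f₂, m1, m2, e, d1, d2⟩ := hni'
  have hsum : f₁.natDegree + f₂.natDegree = g.natDegree := by
    rw [← m1.natDegree_mul m2, e, hgd]
  have hDn0 : D.natDegree ≠ 0 := by omega
  choose a1 ha1 hb1 using fun i : ℕ => rep hDn0 (f₁.coeff i)
  choose a2 ha2 hb2 using fun i : ℕ => rep hDn0 (f₂.coeff i)
  rw [hDn] at hb1 hb2
  have hr2 : g.natDegree - f₁.natDegree = f₂.natDegree := by omega
  refine ⟨f₁.natDegree, Finset.mem_Ico.2 ⟨by omega, by omega⟩, ?_⟩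
  rw [hr2]
  obtain ⟨U, hU⟩ : ∃ U : Polynomial (Polynomial k),
      U = pm2 (fun z : Fin f₁.natDegree × Fin n => (a1 z.1).coeff z.2) := ⟨_, rfl⟩
  obtain ⟨V, hV⟩ : ∃ V : Polynomial (Polynomial k),
      V = pm2 (fun z : Fin f₂.natDegree × Fin n => (a2 z.1).coeff z.2) := ⟨_, rfl⟩
  have hU' : U = pm (fun i : Fin f₁.natDegree => a1 i) := by
    rw [hU, pm2]
    congr 1
    funext i
    exact (eq_pl (hb1 i)).symm
  have hV' : V = pm (fun i : Fin f₂.natDegree => a2 i) := by
    rw [hV, pm2]
    congr 1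
    funext i
    exact (eq_pl (hb2 i)).symm
  have hUm : U.map (AdjoinRoot.mk D) = f₁ := by
    rw [hU', pm_map]
    conv_rhs => rw [eq_pm m1]
    congr 1
    funext i
    exact ha1 i
  have hVm : V.map (AdjoinRoot.mk D) = f₂ := by
    rw [hV', pm_map]
    conv_rhs => rw [eq_pm m2]
    congr 1
    funext i
    exact ha2 i
  have hUmo : U.Monic := by rw [hU']; exact pm_monic _
  have hVmo : V.Monic := by rw [hV']; exact pm_monic _
  have hUVd : (U * V).natDegree = g.natDegree := by
    rw [hUmo.natDegree_mul hVmo, hU', hV', pm_natDegree, pm_natDegree, hsum]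
  have hdvd : Polynomial.C D ∣ g - U * V := by
    rw [Polynomial.C_dvd_iff_dvd_coeff]
    intro i
    rw [← AdjoinRoot.mk_eq_zero, ← Polynomial.coeff_map, Polynomial.map_sub, Polynomial.map_mul,
      hUm, hVm, e, sub_self, Polynomial.coeff_zero]
  obtain ⟨H, hH⟩ := hdvd
  have hHc : ∀ i, D * H.coeff i = (g - U * V).coeff i := by
    intro i
    rw [hH, Polynomial.coeff_C_mul]
  have hH0 : ∀ i, g.natDegree ≤ i → H.coeff i = 0 := by
    intro i hi
    have h1 : (g - U * V).coeff i = 0 := by
      rw [Polynomial.coeff_sub]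
      rcases eq_or_lt_of_le hi with h | h
      · rw [← h]
        have h2 : g.coeff g.natDegree = 1 := hg
        have h3 : (U * V).coeff g.natDegree = 1 := by
          rw [← hUVd]
          exact hUmo.mul hVmo
        rw [h2, h3, sub_self]
      · rw [Polynomial.coeff_eq_zero_of_natDegree_lt h,
          Polynomial.coeff_eq_zero_of_natDegree_lt (by rw [hUVd]; exact h), sub_self]
    have h2 := hHc i
    rw [h1] at h2
    exact (mul_eq_zero.1 h2).resolve_left hD.ne_zero
  have hHd : ∀ i, (H.coeff i).natDegree < N := by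
    intro i
    by_cases h0 : H.coeff i = 0
    · rw [h0, Polynomial.natDegree_zero]
      omega
    · have h1 : (H.coeff i).natDegree ≤ (D * H.coeff i).natDegree := by
        rw [Polynomial.natDegree_mul hD.ne_zero h0]
        omega
      refine lt_of_le_of_lt h1 ?_
      rw [hHc, Polynomial.coeff_sub]
      refine lt_of_le_of_lt (Polynomial.natDegree_sub_le _ _) (max_lt (hN i) ?_)
      refine lt_of_le_of_lt ?_ hN2
      rw [Polynomial.coeff_mul]
      refine Polynomial.natDegree_sum_le_of_forall_le _ _ fun z _ => ?_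
      refine Polynomial.natDegree_mul_le.trans ?_
      have q1 : (U.coeff z.1).natDegree ≤ n := by
        rw [hU]
        exact Polynomial.natDegree_le_of_degree_le (pm2_deg hn _ _).le
      have q2 : (V.coeff z.2).natDegree ≤ n := by
        rw [hV]
        exact Polynomial.natDegree_le_of_degree_le (pm2_deg hn _ _).le
      omega
  refine ⟨fun z => (a1 z.1).coeff z.2, fun z => (a2 z.1).coeff z.2,
    fun z => (H.coeff z.1).coeff z.2, ?_⟩
  rw [← hU, ← hV]
  have hHe : H = pl2 (fun z : Fin g.natDegree × Fin N => (H.coeff z.1).coeff z.2) := by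
    rw [pl2]
    have h1 : (fun i : Fin g.natDegree => pl fun j : Fin N => (H.coeff i).coeff j) =
        fun i : Fin g.natDegree => H.coeff i := by
      funext i
      exact (eq_pl (hHd i)).symm
    rw [h1]
    ext1 i
    rw [pl_coeff]
    split_ifs with h
    · rfl
    · exact hH0 i (by omega)
  rw [← hHe, ← hH]
  ring

theorem main (hI : S_IAL) (hT : S_THE) (hG : S_GIR) : S_IRR := by
  classical
  intro k _ _ J _ ω u n l0 hn g hg hirr
  have hg0 : 0 < g.natDegree := by
    rw [Nat.pos_iff_ne_zero]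
    intro h0
    rw [hg.natDegree_eq_zero] at h0
    rw [h0, Polynomial.map_one] at hirr
    exact not_irreducible_one hirr
  obtain ⟨d, G, hd, hGd⟩ := int2 g
  obtain ⟨N, hN, hN2⟩ : ∃ N : ℕ, (∀ m, (g.coeff m).natDegree < N) ∧ 2 * n l0 < N := by
    refine ⟨max (g.support.sup fun m => (g.coeff m).natDegree) (2 * n l0) + 1, fun m => ?_, ?_⟩
    · by_cases hm : m ∈ g.support
      · have := Finset.le_sup (f := fun m => (g.coeff m).natDegree) hm
        omega
      · rw [Polynomial.notMem_support_iff.1 hm, Polynomial.natDegree_zero]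
        omega
    · omega
  obtain ⟨j0⟩ := exJ ω
  have hinj : Function.Injective (fun j => (⟨l0, j⟩ : Σ l : Fin u, Fin (n l + 1))) := by
    intro j j' h
    exact eq_of_heq (Sigma.mk.inj_iff.1 h).2
  obtain ⟨Θ, hΘi, hΘC, hΘt⟩ := hT k (𝓞 k) (Σ l : Fin u, Fin (n l + 1)) J ω j0 (ω.ne_zero j0)
    (n l0) (fun j => ⟨l0, j⟩) hn hinj
  obtain ⟨A, B, Δ, hΔ, hAB⟩ := gen_sep (n := n l0) hn
    (fun j => (⟨l0, j⟩ : Σ l : Fin u, Fin (n l + 1))) hinj
  have hD : ∀ r ∈ Finset.Ico 1 g.natDegree, D0 {x : (Σ l : Fin u, Fin (n l + 1)) × J → ℤ |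
      ∃ (K : Type) (_ : Field K) (_ : NumberField K) (σ : 𝓞 k →+* K)
      (u : Fin r × Fin (n l0) → K) (v : Fin (g.natDegree - r) × Fin (n l0) → K)
      (h : Fin g.natDegree × Fin N → K), Module.finrank ℚ K ≤ Fintype.card J ∧
      G.map (Polynomial.mapRingHom σ) =
        Polynomial.C (Polynomial.C (σ d)) * (pm2 u * pm2 v) +
        Polynomial.C ((PX n l0).map (av (cv (fun j => σ (ω j)) fun q => (x q : K)))) *
          pl2 h} := by
    intro r hr
    rw [Finset.mem_Ico] at hr
    refine densU ω hI (PX n l0) A B Δ hΔ hAB G d hd hn (PX_natDegree l0) r (g.natDegree - r)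
      g.natDegree N Θ hΘi ?_
    intro u' v' h' e
    set κ := FractionRing (Polynomial k) with hκ
    set F := FractionRing (MvPolynomial ((Σ l : Fin u, Fin (n l + 1)) × J) κ) with hF
    obtain ⟨tF, htF⟩ : ∃ t : F, t = algebraMap (MvPolynomial ((Σ l : Fin u, Fin (n l + 1)) × J) κ)
      F (MvPolynomial.C (algebraMap (Polynomial k) κ Polynomial.X)) := ⟨_, rfl⟩
    obtain ⟨χ, hχ⟩ : ∃ χ : Polynomial k →+* F, χ = (algebraMap κ F).comp
      (algebraMap (Polynomial k) κ) := ⟨_, rfl⟩
    have hκF : ∀ z : κ, algebraMap κ F z =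
        algebraMap (MvPolynomial ((Σ l : Fin u, Fin (n l + 1)) × J) κ) F (MvPolynomial.C z) := by
      intro z
      rw [IsScalarTower.algebraMap_apply κ
        (MvPolynomial ((Σ l : Fin u, Fin (n l + 1)) × J) κ) F, MvPolynomial.algebraMap_eq]
    have hχX : χ Polynomial.X = tF := by
      rw [hχ, htF, RingHom.comp_apply, hκF]
    have hχC : ∀ o : 𝓞 k, χ (Polynomial.C (algebraMap (𝓞 k) k o)) = Θ (C o) := by
      intro o
      rw [hχ, RingHom.comp_apply, hκF, hΘC]
    have hcomp : (Polynomial.evalRingHom tF).comp (Polynomial.mapRingHom (Θ.comp C)) =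
        χ.comp (Polynomial.mapRingHom (algebraMap (𝓞 k) k)) := by
      apply Polynomial.ringHom_ext
      · intro o
        simp [hχC]
      · simp [hχX]
    have h1 := congrArg (Polynomial.map (Polynomial.evalRingHom tF)) e
    have hP0 : Polynomial.eval tF ((PX n l0).map (av (cv (fun j => Θ (C (ω j)))
        fun q => Θ (X q)))) = 0 := by
      rw [map_PX, polA, Polynomial.eval_finset_sum]
      rw [← hΘt, htF]
      refine Finset.sum_congr rfl fun j _ => ?_
      rw [Polynomial.eval_mul, Polynomial.eval_C, Polynomial.eval_pow, Polynomial.eval_X]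
      congr 1
      simp only [cv]
      exact Finset.sum_congr rfl fun j' _ => mul_comm _ _
    rw [Polynomial.map_map, hcomp, ← Polynomial.map_map, hGd, Polynomial.map_mul,
      Polynomial.map_C, hχC, Polynomial.map_add, Polynomial.map_mul, Polynomial.map_mul,
      Polynomial.map_mul, Polynomial.map_C, Polynomial.map_C, Polynomial.coe_evalRingHom, hP0,
      Polynomial.eval_C, Polynomial.C_0, zero_mul, add_zero] at h1
    have hΘd : Θ (C d) ≠ 0 := by
      rw [Ne, map_eq_zero_iff Θ hΘi, MvPolynomial.C_eq_zero]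
      exact hd
    have h2 := mul_left_cancel₀ (Polynomial.C_ne_zero.2 hΘd) h1
    have h3 : Irreducible (g.map χ) := by
      have := hG κ ((Σ l : Fin u, Fin (n l + 1)) × J) (g.map (algebraMap (Polynomial k) κ))
        (hg.map _) hirr
      rw [Polynomial.map_map] at this
      rw [hχ]
      exact this
    rw [h2, pm2, pm2, pm_map, pm_map] at h3
    rcases h3.isUnit_or_isUnit rfl with h4 | h4
    · have h5 := Polynomial.natDegree_eq_zero_of_isUnit h4
      rw [pm_natDegree] at h5
      omega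
    · have h5 := Polynomial.natDegree_eq_zero_of_isUnit h4
      rw [pm_natDegree] at h5
      omega
  have h1 := D0.biUnion _ _ hD
  have h2 := dens_top (n := n) ω l0
  intro ε hε
  refine ((h1.union h2) ε hε).mono ?_
  intro x hx
  by_contra hcon
  simp only [Set.mem_union, not_or, Set.mem_iUnion, exists_prop, not_exists, not_and,
    Set.mem_setOf_eq, not_not] at hcon
  obtain ⟨c1, c2⟩ := hcon
  have hDd : (Dp ω x l0).natDegree = n l0 := (lead_polA (c := fun j => kv ω x ⟨l0, j⟩) c2).1
  obtain ⟨r, hr, u', v', h', e⟩ := reduce hx.1 hn hDd hg hg0 hN hN2 hx.2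
  refine c1 r hr k inferInstance inferInstance (algebraMap (𝓞 k) k) u' v'
    (fun z => algebraMap (𝓞 k) k d * h' z) ?_ ?_
  · rw [card_J ω]
  · have hkv : (cv (fun j => algebraMap (𝓞 k) k (ω j)) fun q => (x q : k)) = kv ω x := by
      have := cv_kv (K := k) ω x
      funext i
      have h3 := congrFun this i
      simp only [Algebra.algebraMap_self, RingHom.id_apply] at h3
      exact h3
    have hpl : pl2 (fun z => algebraMap (𝓞 k) k d * h' z) =
        Polynomial.C (Polynomial.C (algebraMap (𝓞 k) k d)) * pl2 h' := by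
      ext i j
      rw [Polynomial.coeff_C_mul, Polynomial.coeff_C_mul]
      simp only [pl2, pl_coeff]
      split_ifs with q1
      · rw [pl_coeff, pl_coeff]
        split_ifs with q2
        · rfl
        · rw [mul_zero]
      · simp
    rw [hGd, hkv, map_PX, hpl]
    have e2 : (polA fun j => kv ω x ⟨l0, j⟩) = Dp ω x l0 := rfl
    rw [e2]
    conv_lhs => rw [e]
    ring

end nf

end Pool.Agent.Helper86.RG.IRR
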